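import Mathlib
import Pool.Agent.ACG.Main

/-! Components of the relativised Andrews-Curtis graphs of finite groups with operators: for every
`k ≥ 2` they are the preimages of the components for the abelianisation. All notions are the literal
ones: normal closures and conjugations in the semidirect product. -/

set_option autoImplicit false

namespace Pool.Agent.Results.MP_a9e0e5_al.Components

/-- `gp φ Y` is the normal closure of `Y ⊆ G` in the semidirect product of `G` by `Ω`. -/
def gp {G Ω : Type} [Group G] [Group Ω] (φ : Ω →* MulAut G) (Y : Set G) :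
    Subgroup (G ⋊[φ] Ω) :=
  Subgroup.normalClosure ((SemidirectProduct.inl : G →* G ⋊[φ] Ω) '' Y)

/-- `NN φ k` is the set `N_k(G, Ω)` of the `k`-tuples whose normal closure in the semidirect product
is `G`. -/
def NN {G Ω : Type} [Group G] [Group Ω] (φ : Ω →* MulAut G) (k : ℕ) : Set (Fin k → G) :=
  {u | gp φ (Set.range u) = (SemidirectProduct.inl : G →* G ⋊[φ] Ω).range}

/-- `Elem φ a b`: the tuple `b` arises from `a` by an elementary transformation, that is, by replacing
one entry `a i` by one of `a i * a j`, `a i * (a j)⁻¹`, `a j * a i`, `(a j)⁻¹ * a i` with `j ≠ i`, by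
`(a i)⁻¹`, or by a conjugate `s⁻¹ * a i * s` with `s` in the semidirect product. -/
def Elem {G Ω : Type} [Group G] [Group Ω] (φ : Ω →* MulAut G) {k : ℕ} (a b : Fin k → G) : Prop :=
  ∃ (i : Fin k) (x : G), b = Function.update a i x ∧
    ((∃ j : Fin k, j ≠ i ∧
      (x = a i * a j ∨ x = a i * (a j)⁻¹ ∨ x = a j * a i ∨ x = (a j)⁻¹ * a i)) ∨
    x = (a i)⁻¹ ∨
    ∃ s : G ⋊[φ] Ω, (SemidirectProduct.inl x : G ⋊[φ] Ω) = s⁻¹ * SemidirectProduct.inl (a i) * s)

/-- The relativised Andrews-Curtis graph: its vertices are the tuples of `NN φ k`, two tuples being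
adjacent if one arises from the other by an elementary transformation. -/
def Delta {G Ω : Type} [Group G] [Group Ω] (φ : Ω →* MulAut G) (k : ℕ) : SimpleGraph (NN φ k) :=
  SimpleGraph.fromRel (fun a b => Elem φ (a : Fin k → G) (b : Fin k → G))

/-- The action on the abelianisation induced by the action `φ`. -/
def abAct {G Ω : Type} [Group G] [Group Ω] (φ : Ω →* MulAut G) :
    Ω →* MulAut (Abelianization G) where
  toFun ω := (φ ω).abelianizationCongr
  map_one' := by
    apply MulEquiv.ext
    intro x
    induction x using QuotientGroup.induction_on with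
    | H g =>
      show (φ 1).abelianizationCongr (Abelianization.of g) = Abelianization.of g
      rw [abelianizationCongr_of, map_one]
      rfl
  map_mul' a b := by
    apply MulEquiv.ext
    intro x
    induction x using QuotientGroup.induction_on with
    | H g =>
      show (φ (a * b)).abelianizationCongr (Abelianization.of g) =
        (φ a).abelianizationCongr ((φ b).abelianizationCongr (Abelianization.of g))
      rw [abelianizationCongr_of, abelianizationCongr_of, abelianizationCongr_of, map_mul]
      rfl

section bridge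

open Pool.Agent.ACG

variable {G Ω : Type} [Group G] [Group Ω] (φ : Ω →* MulAut G)

/-- the action as an instance -/
@[reducible] def act : MulDistribMulAction Ω G := MulDistribMulAction.compHom G φ

theorem conj_inl (g h : G) (ω : Ω) :
    (SemidirectProduct.inl g * SemidirectProduct.inr ω : G ⋊[φ] Ω) * SemidirectProduct.inl h *
      (SemidirectProduct.inl g * SemidirectProduct.inr ω)⁻¹ =
      SemidirectProduct.inl (g * φ ω h * g⁻¹) := by
  rw [map_mul, map_mul, SemidirectProduct.inl_aut, map_inv, mul_inv_rev]
  simp only [mul_assoc, map_inv]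

theorem gen_iff {k : ℕ} (u : Fin k → G) :
    u ∈ NN φ k ↔ @Gen Ω G _ _ (act φ) k u := by
  let _ := act φ
  constructor
  · intro hu H h1 h2 h3
    have hu' : gp φ (Set.range u) = (SemidirectProduct.inl : G →* G ⋊[φ] Ω).range := hu
    have hN : (H.map (SemidirectProduct.inl : G →* G ⋊[φ] Ω)).Normal := by
      constructor
      intro n hn s
      obtain ⟨h, hh, rfl⟩ := hn
      rw [← SemidirectProduct.inl_left_mul_inr_right s, conj_inl]
      exact ⟨_, h1.conj_mem _ (h2 s.right h hh) s.left, rfl⟩
    have hle : gp φ (Set.range u) ≤ H.map (SemidirectProduct.inl : G →* G ⋊[φ] Ω) := by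
      refine Subgroup.normalClosure_le_normal ?_
      rintro _ ⟨_, ⟨i, rfl⟩, rfl⟩
      exact ⟨u i, h3 i, rfl⟩
    rw [hu'] at hle
    rw [eq_top_iff]
    intro x _
    obtain ⟨y, hy, hxy⟩ := hle ⟨x, rfl⟩
    rw [← SemidirectProduct.inl_injective hxy]
    exact hy
  · intro hu
    have h1 : (gp φ (Set.range u)).Normal := Subgroup.normalClosure_normal
    have h2 := hu ((gp φ (Set.range u)).comap (SemidirectProduct.inl : G →* G ⋊[φ] Ω))
      (h1.comap _) (by
        intro ω h hh
        show (SemidirectProduct.inl (φ ω h) : G ⋊[φ] Ω) ∈ gp φ (Set.range u)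
        rw [SemidirectProduct.inl_aut]
        have := h1.conj_mem _ hh (SemidirectProduct.inr ω : G ⋊[φ] Ω)
        rwa [← map_inv] at this) (by
        intro i
        exact Subgroup.subset_normalClosure ⟨u i, ⟨i, rfl⟩, rfl⟩)
    refine le_antisymm ?_ ?_
    · have h3 : ((SemidirectProduct.inl : G →* G ⋊[φ] Ω).range).Normal := by
        rw [SemidirectProduct.range_inl_eq_ker_rightHom]
        infer_instance
      refine Subgroup.normalClosure_le_normal ?_
      rintro _ ⟨x, _, rfl⟩
      exact ⟨x, rfl⟩
    · rintro _ ⟨x, rfl⟩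
      have : x ∈ (gp φ (Set.range u)).comap (SemidirectProduct.inl : G →* G ⋊[φ] Ω) := by
        rw [h2]
        trivial
      exact this

theorem elem_AC {k : ℕ} {a b : Fin k → G} (h : Elem φ a b) : @AC Ω G _ _ (act φ) k a b := by
  let _ := act φ
  obtain ⟨i, x, hb, h⟩ := h
  subst hb
  rcases h with ⟨j, hj, h | h | h | h⟩ | h | ⟨s, h⟩
  · subst h
    exact mv_mul a hj.symm
  · subst h
    exact mv_mul_inv a hj.symm
  · subst h
    exact mv_lmul a hj.symm
  · subst h
    exact mv_linv a hj.symm
  · subst h
    exact mv_inv a i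
  · -- the conjugation
    have h1 : x = (s⁻¹).left * φ (s⁻¹).right (a i) * ((s⁻¹).left)⁻¹ := by
      apply SemidirectProduct.inl_injective (φ := φ)
      rw [h, ← conj_inl, SemidirectProduct.inl_left_mul_inr_right, inv_inv]
    have h2 := mv_op (Ω := Ω) a i (s⁻¹).right
    have h3 := mv_conj (Ω := Ω) (Function.update a i ((s⁻¹).right • a i)) i ((s⁻¹).left)⁻¹
    rw [Function.update_self, Function.update_idem, inv_inv] at h3
    rw [h1]
    exact h2.trans h3

theorem step_elem {k : ℕ} {a b : Fin k → G} (h : @step Ω G _ _ (act φ) k a b) : Elem φ a b := by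
  let _ := act φ
  rcases h with ⟨i, j, hij, h⟩ | ⟨i, h⟩ | ⟨i, g, h⟩ | ⟨i, ω, h⟩
  · rcases h with h | h | h | h
    · exact ⟨i, _, h, Or.inl ⟨j, hij.symm, Or.inl rfl⟩⟩
    · exact ⟨i, _, h, Or.inl ⟨j, hij.symm, Or.inr (Or.inl rfl)⟩⟩
    · exact ⟨i, _, h, Or.inl ⟨j, hij.symm, Or.inr (Or.inr (Or.inl rfl))⟩⟩
    · exact ⟨i, _, h, Or.inl ⟨j, hij.symm, Or.inr (Or.inr (Or.inr rfl))⟩⟩
  · exact ⟨i, _, h, Or.inr (Or.inl rfl)⟩
  · refine ⟨i, _, h, Or.inr (Or.inr ⟨SemidirectProduct.inl g, ?_⟩)⟩
    rw [map_mul, map_mul, map_inv]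
  · refine ⟨i, _, h, Or.inr (Or.inr ⟨SemidirectProduct.inr ω⁻¹, ?_⟩)⟩
    show (SemidirectProduct.inl (φ ω (a i)) : G ⋊[φ] Ω) = _
    rw [SemidirectProduct.inl_aut]
    simp only [map_inv, inv_inv]

theorem reach_iff {k : ℕ} (U V : NN φ k) :
    (Delta φ k).Reachable U V ↔ @AC Ω G _ _ (act φ) k U V := by
  let _ := act φ
  constructor
  · intro h
    rw [SimpleGraph.reachable_iff_reflTransGen] at h
    induction h with
    | refl => exact AC.refl _
    | tail _ h2 ih =>
      refine ih.trans ?_
      rw [Delta, SimpleGraph.fromRel_adj] at h2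
      rcases h2.2 with h3 | h3
      · exact elem_AC φ h3
      · exact (elem_AC φ h3).symm
  · intro h
    have key : ∀ b : Fin k → G, @AC Ω G _ _ (act φ) k U b →
        ∃ hb : b ∈ NN φ k, (Delta φ k).Reachable U ⟨b, hb⟩ := by
      intro b hb
      induction hb with
      | refl => exact ⟨U.2, SimpleGraph.Reachable.refl _⟩
      | @tail c d hc h2 ih =>
        obtain ⟨h3, h4⟩ := ih
        have hd : d ∈ NN φ k := by
          rw [gen_iff]
          exact AC.gen (Relation.ReflTransGen.single h2) ((gen_iff φ c).1 h3)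
        refine ⟨hd, h4.trans ?_⟩
        by_cases hcd : (⟨c, h3⟩ : NN φ k) = ⟨d, hd⟩
        · rw [hcd]
        · refine SimpleGraph.Adj.reachable ?_
          rw [Delta, SimpleGraph.fromRel_adj]
          exact ⟨hcd, Or.inl (step_elem φ h2)⟩
    obtain ⟨h1, h2⟩ := key V h
    exact h2

theorem act_of (ω : Ω) (g : G) :
    (Abelianization.of (φ ω g) : Abelianization G) = abAct φ ω (Abelianization.of g) := by
  show _ = (φ ω).abelianizationCongr (Abelianization.of g)
  rw [abelianizationCongr_of]

theorem map_AC {k : ℕ} {a b : Fin k → G} (h : @AC Ω G _ _ (act φ) k a b) :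
    @AC Ω (Abelianization G) _ _ (act (abAct φ)) k (fun i => Abelianization.of (a i))
      (fun i => Abelianization.of (b i)) := by
  let _ := act φ
  let _ := act (abAct φ)
  induction h with
  | refl => exact AC.refl _
  | @tail c d _ h2 ih =>
    refine ih.trans ?_
    have hup : ∀ (i : Fin k) (x : G),
        (fun l => Abelianization.of (Function.update c i x l)) =
          Function.update (fun l => Abelianization.of (c l)) i (Abelianization.of x) := by
      intro i x
      funext l
      by_cases hl : l = i
      · subst hl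
        rw [Function.update_self, Function.update_self]
      · rw [Function.update_of_ne hl, Function.update_of_ne hl]
    rcases h2 with ⟨i, j, hij, h2⟩ | ⟨i, h2⟩ | ⟨i, g, h2⟩ | ⟨i, ω, h2⟩
    · rcases h2 with h2 | h2 | h2 | h2 <;> subst h2 <;> rw [hup]
      · rw [map_mul]
        exact mv_mul (fun l => Abelianization.of (c l)) hij
      · rw [map_mul, map_inv]
        exact mv_mul_inv (fun l => Abelianization.of (c l)) hij
      · rw [map_mul]
        exact mv_lmul (fun l => Abelianization.of (c l)) hij
      · rw [map_mul, map_inv]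
        exact mv_linv (fun l => Abelianization.of (c l)) hij
    · subst h2
      rw [hup, map_inv]
      exact mv_inv (fun l => Abelianization.of (c l)) i
    · subst h2
      rw [hup, map_mul, map_mul, map_inv]
      exact mv_conj (fun l => Abelianization.of (c l)) i (Abelianization.of g)
    · subst h2
      rw [hup]
      have h3 : (Abelianization.of (ω • c i) : Abelianization G) = ω • Abelianization.of (c i) :=
        act_of φ ω (c i)
      rw [h3]
      exact mv_op (fun l => Abelianization.of (c l)) i ω

theorem of_eq_iff {x y : G} :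
    Abelianization.of x = Abelianization.of y ↔
      x⁻¹ * y ∈ ⁅(⊤ : Subgroup G), (⊤ : Subgroup G)⁆ := by
  have h : Abelianization.of x = Abelianization.of y ↔ x⁻¹ * y ∈ commutator G :=
    QuotientGroup.eq
  rw [h, commutator_def]

theorem of_surj : Function.Surjective (Abelianization.of : G →* Abelianization G) := by
  intro x
  induction x using QuotientGroup.induction_on with
  | H g => exact ⟨g, rfl⟩

theorem gen_ab {k : ℕ} {a : Fin k → G} (h : @Gen Ω G _ _ (act φ) k a) :
    @Gen Ω (Abelianization G) _ _ (act (abAct φ)) k (fun i => Abelianization.of (a i)) := by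
  let _ := act φ
  let _ := act (abAct φ)
  intro H h1 h2 h3
  have h4 := h (H.comap Abelianization.of) (h1.comap _) (by
    intro ω g hg
    show Abelianization.of (φ ω g) ∈ H
    rw [act_of]
    exact h2 ω _ hg) h3
  rw [eq_top_iff]
  intro x _
  obtain ⟨g, rfl⟩ := of_surj x
  have : g ∈ H.comap Abelianization.of := by
    rw [h4]
    trivial
  exact this

theorem AC_iff [Finite G] {k : ℕ} (hk : 2 ≤ k) {U V : Fin k → G}
    (hU : @Gen Ω G _ _ (act φ) k U) (hV : @Gen Ω G _ _ (act φ) k V) :
    @AC Ω G _ _ (act φ) k U V ↔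
      @AC Ω (Abelianization G) _ _ (act (abAct φ)) k (fun i => Abelianization.of (U i))
        (fun i => Abelianization.of (V i)) := by
  let _ := act φ
  let _ := act (abAct φ)
  refine ⟨map_AC φ, ?_⟩
  intro h
  obtain ⟨V', h1, h2⟩ := lift_path (Ω := Ω) (Abelianization.of : G →* Abelianization G) of_surj
    (fun ω g => act_of φ ω g) U h
  exact h1.trans (main _ G Ω le_rfl k hk V' V (h1.gen hU) hV (fun i => of_eq_iff.1 (h2 i)))

end bridge

/-- For every finite group `G` with a group `Ω` of operators and every `k ≥ 2`, the coordinatewise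
image of a tuple of `N_k(G, Ω)` lies in `N_k(Ab(G), Ω)`, and two tuples are in one component of the
relativised Andrews-Curtis graph of `G` if and only if their images are in one component of the graph
of `Ab(G)`. -/
theorem result :
    ∀ (G Ω : Type) [Group G] [Finite G] [Group Ω] (φ : Ω →* MulAut G) (k : ℕ), 2 ≤ k →
      ∃ h : ∀ U ∈ NN φ k, (fun i => Abelianization.of (U i)) ∈ NN (abAct φ) k,
        ∀ U V : NN φ k,
          (Delta φ k).Reachable U V ↔
            (Delta (abAct φ) k).Reachable
              ⟨fun i => Abelianization.of (U.1 i), h U.1 U.2⟩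
              ⟨fun i => Abelianization.of (V.1 i), h V.1 V.2⟩ := by
  intro G Ω _ _ _ φ k hk
  refine ⟨fun U hU => (gen_iff (abAct φ) _).2 (gen_ab φ ((gen_iff φ U).1 hU)), ?_⟩
  intro U V
  rw [reach_iff, reach_iff]
  exact AC_iff φ hk ((gen_iff φ U.1).1 U.2) ((gen_iff φ V.1).1 V.2)

end Pool.Agent.Results.MP_a9e0e5_al.Components
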